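import Pool.Agent.P8H77.FC.Main

/-! # Polarization constants of fat Cantor sets (MP_efb919_an, Q2)

For every compact set `K ⊆ [0, 1]` of positive Lebesgue measure, in particular for every fat Cantor
set, the normalised Riesz polarization constants converge to `2 (2 ^ s - 1) ζ(s) λ(K) ^ (-s)`.

Proof. Upper bound: the map `φ(t) = λ(K ∩ (-∞, t])` is `1`-Lipschitz and maps `K` onto
`[0, λ(K)]`, so potentials on `K` are at most the potentials of the image configuration on the
interval `[0, λ(K)]`; and for `N` sorted points `p_i` of an interval of length `L` the sum of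
`|y - p_i| ^ (-s)` at `y = k L / N`, where `k` minimises `∑_{i ≤ k} (p_i - (i - 1/2) L / N)`, is at
most its value for the equally spaced points, by the tangent inequality and summation by parts.
Lower bound: take the points of `K` with `φ = (j - 1/2) L / n`, where `n` is a bit smaller than `N`;
near the points of `K` around which, at the scale `1 / N`, the gaps of `K` are short this is
nearly a sequence of equally spaced points; the other points of `K` are covered by `o(N)`
intervals of length `θ / N`, since the measure of the neighbourhoods of `K` tends to that of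
`K`, and one more point is put into each of these intervals. -/

set_option autoImplicit false
open Filter Topology MeasureTheory
open scoped ENNReal

namespace Pool.Agent.Results.MP_efb919_an.ZetaLimit

/-- The `N`-th Riesz `s`-polarization constant of `K`: the supremum over all `N`-point
configurations `x` in `K` of the infimum over `y ∈ K` of `∑ |y - x j| ^ (-s)`, where a term with
`y = x j` is `∞`. -/
noncomputable def pol (s : ℝ) (K : Set ℝ) (N : ℕ) : ℝ≥0∞ :=
  ⨆ (x : Fin N → ℝ) (_ : ∀ i, x i ∈ K), ⨅ y ∈ K, ∑ j, (ENNReal.ofReal |y - x j|) ^ (-s)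

/-- **Answer to Q2: yes**, for all compact subsets of `[0, 1]` of positive Lebesgue measure:
`pol_s(K; N) / N ^ s` converges to `2 (2 ^ s - 1) ζ(s) λ(K) ^ (-s)`. -/
theorem result : ∀ K : Set ℝ, K ⊆ Set.Icc (0 : ℝ) 1 → IsCompact K → 0 < volume K →
    ∀ s : ℝ, 1 < s →
      Tendsto (fun N : ℕ => pol s K N / (N : ℝ≥0∞) ^ s) atTop
        (𝓝 (ENNReal.ofReal
          (2 * (2 ^ s - 1) * (riemannZeta s).re * (volume K).toReal ^ (-s)))) := by
  intro K h01 hK hpos s hs
  have hpos' : 0 < volume.real K := ENNReal.toReal_pos hpos.ne' hK.measure_lt_top.ne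
  have h := Pool.Agent.P8H77.FC.limit hK h01 hpos' hs
  rw [Pool.Agent.P8H77.FC.Zs_eq hs, ← mul_assoc] at h
  exact h

end Pool.Agent.Results.MP_efb919_an.ZetaLimit
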